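import Pool.Agent.Helper96.AW.GoalsA
import Pool.Agent.Helper83.AF.UG
import Pool.Agent.Helper12.AF.BLK
import Pool.Agent.Helper14.AF.PAR
import Pool.Agent.Helper92.AF.ORBS

/-!
# Packet GB: the genus is at most half the excess
-/

set_option autoImplicit false

namespace Pool.Agent.Helper42.AW.GB

open Finset Pool.Agent.Helper26.AF Pool.Agent.Helper26.AL Pool.Agent.Helper96.AW Pool.Agent.Helper83.AF

variable {V : Type} [Fintype V] [DecidableEq V] (G : SimpleGraph V)

theorem le_ec (c : G.ConnectedComponent) : eIn G (sc G c) ≤ ec G c := by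
  classical
  rw [ec, eIn]
  apply Nat.card_le_card_of_surjective
    (fun e : c.toSimpleGraph.edgeSet => (⟨Sym2.map Subtype.val e.1, by
      obtain ⟨e, he⟩ := e
      induction e using Sym2.ind with
      | _ u v =>
        refine ⟨?_, ?_⟩
        · exact he
        · intro x hx
          rw [Sym2.map_mk, Sym2.mem_iff] at hx
          rw [mem_sc]
          rcases hx with rfl | rfl
          · exact u.2
          · exact v.2⟩ :
        {e : Sym2 V // e ∈ G.edgeSet ∧ ∀ v ∈ e, v ∈ sc G c}))
  rintro ⟨e, he, hv⟩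
  induction e using Sym2.ind with
  | _ u v =>
    have hu : G.connectedComponentMk u = c := (mem_sc G c u).1 (hv u (Sym2.mem_mk_left _ _))
    have hv' : G.connectedComponentMk v = c := (mem_sc G c v).1 (hv v (Sym2.mem_mk_right _ _))
    exact ⟨⟨s(⟨u, hu⟩, ⟨v, hv'⟩), he⟩, rfl⟩

theorem orb_two {D : Type} [Finite D] (π : Equiv.Perm D) (d d' : D) (h : ¬ π.SameCycle d d') :
    2 ≤ orb π := by
  rw [orb]
  have hf : Finite (Quotient (Equiv.Perm.SameCycle.setoid π)) := inferInstance
  have : Nontrivial (Quotient (Equiv.Perm.SameCycle.setoid π)) := by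
    refine ⟨⟨Quotient.mk _ d, Quotient.mk _ d', fun he => h ?_⟩⟩
    exact Quotient.exact he
  exact Finite.one_lt_card

theorem one (hPAR : StmtPAR) {σ : Equiv.Perm G.Dart} (hσ : IsRot G σ)
    (c : G.ConnectedComponent) (hc : nc G c + 1 ≤ ec G c)
    (h2 : ∃ d d' : G.Dart, d.fst ∈ sc G c ∧ d'.fst ∈ sc G c ∧ ¬ (σ * rev G).SameCycle d d') :
    ec G c + 2 ≤ nc G c +
      orb ((σ * rev G).subtypePerm (p := fun d => cd G d = c)
        (fun d => by rw [Equiv.Perm.mul_apply, cd_rot G hσ, cd_rev])) +
      (ec G c - nc G c) := by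
  classical
  have h0 := nc_pos G c
  have h3 : 2 ≤ nc G c := by
    by_contra h
    have h4 : nc G c = 1 := by omega
    have := ec_eq_zero G c h4
    omega
  have ho := orb_rot G hσ c h3
  have hp := hPAR {d : G.Dart // cd G d = c}
    (σ.subtypePerm (p := fun d => cd G d = c) (fun d => by rw [cd_rot G hσ])) (rc G c)
    (rc_pair G c)
  have hcard : Fintype.card {d : G.Dart // cd G d = c} = 2 * ec G c := by
    rw [← Nat.card_eq_fintype_card, card_darts]
  have hmul : (σ.subtypePerm (p := fun d => cd G d = c) (fun d => by rw [cd_rot G hσ])) *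
      rc G c = (σ * rev G).subtypePerm (p := fun d => cd G d = c)
      (fun d => by rw [Equiv.Perm.mul_apply, cd_rot G hσ, cd_rev]) := by
    ext x
    · rfl
    · rfl
  rw [hmul, ho, hcard] at hp
  obtain ⟨d, d', hd, hd', hn⟩ := h2
  rw [mem_sc] at hd hd'
  have hF := orb_two ((σ * rev G).subtypePerm (p := fun d => cd G d = c)
      (fun d => by rw [Equiv.Perm.mul_apply, cd_rot G hσ, cd_rev])) ⟨d, hd⟩ ⟨d', hd'⟩ (by
    intro h
    rw [Equiv.Perm.sameCycle_subtypePerm] at h
    exact hn h)
  omega

theorem t : Pool.Agent.Helper96.AW.S_GB := by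
  classical
  intro hGA V _ _ G g hC hg
  obtain ⟨σ, hσ, h2⟩ := hGA V G
  have hPAR : StmtPAR := Pool.Agent.Helper14.AF.goalPAR Pool.Agent.Helper92.AF.goalORBS
  have hBLK : StmtBLK := Pool.Agent.Helper12.AF.goalBLK
  refine ⟨σ, hσ, ?_⟩
  have hI : Fintype G.ConnectedComponent := Fintype.ofFinite _
  have hD : Fintype G.Dart := Fintype.ofFinite _
  have hb := hBLK G.Dart G.ConnectedComponent (σ * rev G) (cd G)
    (fun d => by rw [Equiv.Perm.mul_apply, cd_rot G hσ, cd_rev])
  have hV : Nat.card V = ∑ c : G.ConnectedComponent, nc G c :=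
    sum_fibers (fun v => G.connectedComponentMk v)
  have hne : ne G = ∑ c : G.ConnectedComponent, ec G c := by
    have h1 : Nat.card G.Dart = ∑ c : G.ConnectedComponent, Nat.card {d : G.Dart // cd G d = c} :=
      sum_fibers (cd G)
    rw [card_all_darts] at h1
    simp only [card_darts] at h1
    rw [← Finset.mul_sum] at h1
    omega
  have hcx : ∀ c : G.ConnectedComponent, nc G c + 1 ≤ ec G c := by
    intro c
    have h1 := hC (sc G c) (isComp_sc G c)
    rw [card_sc] at h1
    exact h1.trans (le_ec G c)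
  have hsum := Finset.sum_le_sum (s := (univ : Finset G.ConnectedComponent))
    (fun c _ => one G hPAR hσ c (hcx c) (h2 (sc G c) (isComp_sc G c) (by
      rw [card_sc]
      exact (hcx c).trans (ec_le G c))))
  have hdiff : ∑ c : G.ConnectedComponent, (ec G c - nc G c) + Nat.card V = ne G := by
    rw [hV, hne, ← Finset.sum_add_distrib]
    apply Finset.sum_congr rfl
    intro c _
    have := hcx c
    omega
  rw [Finset.sum_add_distrib, Finset.sum_add_distrib, Finset.sum_add_distrib,
    ← hne, ← hV, Finset.sum_const, Finset.card_univ,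
    ← Nat.card_eq_fintype_card, smul_eq_mul] at hsum
  rw [faces, hb]
  rw [← Nat.card_eq_fintype_card] at hg
  omega

end Pool.Agent.Helper42.AW.GB
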